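import Pool.Agent.Y875.UE.Stm

set_option autoImplicit false

/-! Project UE, jobs VAN and INV. -/

namespace Pool.Agent.Y67.UE.VI

open Finset Pool.Agent.Y875.UE

section Idx

variable {E : Type} [Field E] {k : ℕ} {z : E} {l : E → ZMod (2 ^ k)}

theorem l_one (hl : IsIdx k z l) : l 1 = 0 := by
  have h := hl.mul 1 1 one_ne_zero one_ne_zero
  rw [mul_one] at h
  exact (add_eq_left.1 h.symm)

theorem l_pow (hl : IsIdx k z l) {x : E} (hx : x ≠ 0) (n : ℕ) : l (x ^ n) = (n : ZMod (2 ^ k)) * l x := by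
  induction n with
  | zero => simp [l_one hl]
  | succ n ih =>
    rw [pow_succ, hl.mul _ _ (pow_ne_zero n hx) hx, ih]
    push_cast
    ring

end Idx

theorem nl_zero {q : ℕ} [Fact q.Prime] {R : Type} [CommRing R] (χ : MulChar (ZMod q) R)
    (E : Type) [Field E] [Finite E] [Algebra (ZMod q) E] : nl χ E 0 = 0 := by
  unfold nl
  haveI : FiniteDimensional (ZMod q) E := Module.Finite.of_finite
  rw [Algebra.norm_zero, MulChar.map_zero]

theorem nl_mul {q : ℕ} [Fact q.Prime] {R : Type} [CommRing R] (χ : MulChar (ZMod q) R)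
    (E : Type) [Field E] [Algebra (ZMod q) E] (x y : E) : nl χ E (x * y) = nl χ E x * nl χ E y := by
  unfold nl
  rw [map_mul, map_mul]

theorem t1 : S_VAN := by
  intro q e u k f M _ hL E _ _ _ hcard z hz l hl R _ _ χ hχu hχ
  haveI : FiniteDimensional (ZMod q) E := Module.Finite.of_finite
  obtain ⟨v, hv⟩ := (MulChar.ne_one_iff (χ := χ)).1 hχ
  obtain ⟨s0, hs0⟩ := FiniteField.norm_surjective (ZMod q) E (v : ZMod q)
  have hs00 : s0 ≠ 0 := by
    intro h
    rw [h, Algebra.norm_zero] at hs0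
    exact v.ne_zero hs0.symm
  obtain ⟨h, hh⟩ : ∃ h, h = s0 ^ (2 ^ k) := ⟨_, rfl⟩
  have hh0 : h ≠ 0 := by
    rw [hh]
    exact pow_ne_zero _ hs00
  have hlh : l h = 0 := by
    rw [hh, l_pow hl hs00, ZMod.natCast_self, zero_mul]
  have hnh : nl χ E h ≠ 1 := by
    intro h1
    apply hv
    unfold nl at h1
    rw [hh, map_pow, map_pow, hs0] at h1
    have h2 : (χ (v : ZMod q)) ^ u = 1 := by
      rw [← MulChar.pow_apply_coe, hχu, MulChar.one_apply_coe]
    have h3 : Nat.Coprime u (2 ^ k) := by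
      apply Nat.Coprime.pow_right
      exact (Nat.coprime_two_right).2 hL.hu
    have h4 := Nat.eq_one_of_dvd_coprimes h3 (orderOf_dvd_of_pow_eq_one h2)
      (orderOf_dvd_of_pow_eq_one h1)
    exact orderOf_eq_one_iff.1 h4
  have h1 : ∑ s : E, sgl (l s) (nl χ E s) = (nl χ E h) • ∑ s : E, (sgl (l s) (nl χ E s) : GR R (2 ^ k)) := by
    rw [Finset.smul_sum, ← Equiv.sum_comp (Equiv.mulLeft₀ h hh0)]
    refine Finset.sum_congr rfl fun s _ => ?_
    rw [Equiv.mulLeft₀_apply, AddMonoidAlgebra.smul_single, smul_eq_mul, nl_mul]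
    by_cases hs : s = 0
    · rw [hs, nl_zero, mul_zero]
      simp
    · rw [hl.mul h s hh0 hs, hlh, zero_add]
  ext A
  have h2 := congrArg (fun f : GR R (2 ^ k) => f.coeff A) h1
  rw [AddMonoidAlgebra.coeff_smul_apply, smul_eq_mul] at h2
  have h3 : (1 - nl χ E h) * (∑ s : E, (sgl (l s) (nl χ E s) : GR R (2 ^ k))).coeff A = 0 := by
    linear_combination h2
  rcases mul_eq_zero.1 h3 with h4 | h4
  · exact absurd (sub_eq_zero.1 h4).symm hnh
  · rw [h4]
    simp

/-- multiplication by `a` on the group ring -/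
noncomputable def theta (R : Type) [CommRing R] (N : ℕ) (a : ZMod N) : GR R N →+* GR R N :=
  AddMonoidAlgebra.mapDomainRingHom R (AddMonoidHom.mulLeft a)

theorem theta_sgl {R : Type} [CommRing R] {N : ℕ} (a A : ZMod N) (r : R) :
    theta R N a (sgl A r) = sgl (a * A) r := by
  unfold theta
  simp

theorem theta_coeff {R : Type} [CommRing R] {N : ℕ} (a A : ZMod N) (ha : IsUnit a) (f : GR R N) :
    (theta R N a f).coeff (a * A) = f.coeff A := by
  have hinj : Function.Injective (AddMonoidHom.mulLeft a) := fun x y h => ha.mul_left_cancel h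
  change (AddMonoidAlgebra.mapDomain (AddMonoidHom.mulLeft a) f).coeff (a * A) = _
  exact Finsupp.mapDomain_apply hinj f.coeff A

theorem theta_PN {R : Type} [CommRing R] {N : ℕ} (a : ZMod N) (c : ℕ → R) (n : ℕ) (H : GR R N)
    (hH : theta R N a H = H) : theta R N a (PN c n H) = PN c n H := by
  unfold PN
  rw [map_sum]
  refine Finset.sum_congr rfl fun i _ => ?_
  rw [map_mul, map_pow, hH, theta_sgl, mul_zero]

theorem t2 : S_INV := by
  classical
  intro q e u k f M _ hL E _ _ _ hcard z hz l hl R _ χ c n A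
  haveI : FiniteDimensional (ZMod q) E := Module.Finite.of_finite
  haveI : CharP E q := charP_of_injective_algebraMap (algebraMap (ZMod q) E).injective q
  have hq2 : (q : ZMod 2) = 1 := by
    have := hL.odd
    exact ZMod.natCast_eq_one_iff_odd.2 this
  have hk : 1 ≤ k := le_trans (by norm_num) hL.hk
  have hunit : IsUnit (q : ZMod (2 ^ k)) := by
    rw [ZMod.isUnit_iff_coprime]
    apply Nat.Coprime.pow_right
    exact (Nat.coprime_two_right).2 hL.odd
  -- parity
  have hpar : ∀ B : ZMod (2 ^ k), Odd ((q : ZMod (2 ^ k)) * B).val ↔ Odd B.val := by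
    intro B
    have h2k : 2 ∣ 2 ^ k := dvd_pow_self 2 (by omega)
    have h1 : ((q : ZMod (2 ^ k)) * B).val % 2 = (q * B.val) % 2 := by
      rw [ZMod.val_mul, ZMod.val_natCast, Nat.mod_mod_of_dvd _ h2k, Nat.mul_mod (q % 2 ^ k),
        Nat.mod_mod_of_dvd _ h2k, ← Nat.mul_mod]
    rw [Nat.odd_iff, h1, ← Nat.odd_iff, Nat.odd_mul]
    exact ⟨fun h => h.2, fun h => ⟨hL.odd, h⟩⟩
  have hH : theta R (2 ^ k) (q : ZMod (2 ^ k)) (HH l (nl χ E)) = HH l (nl χ E) := by
    unfold HH
    rw [map_sum]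
    have hbij : Function.Bijective (fun s : E => s ^ q) := by
      rw [Finite.injective_iff_bijective.symm]
      exact frobenius_inj E q
    rw [← Function.Bijective.sum_comp hbij (fun s : E => if s ≠ 0 ∧ s ≠ 1 ∧ Odd (l (1 - s)).val
      then (sgl (l s) (nl χ E s) : GR R (2 ^ k)) else 0)]
    refine Finset.sum_congr rfl fun s _ => ?_
    have hqp : q ≠ 0 := hL.prime.ne_zero
    have h0 : s ^ q ≠ 0 ↔ s ≠ 0 := by
      rw [not_iff_not]
      exact pow_eq_zero_iff hqp
    have h1 : s ^ q ≠ 1 ↔ s ≠ 1 := by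
      rw [not_iff_not]
      constructor
      · intro h
        apply frobenius_inj E q
        rw [map_one]
        exact h
      · rintro rfl
        exact one_pow _
    by_cases hs : s ≠ 0 ∧ s ≠ 1
    · have h2 : 1 - s ^ q = (1 - s) ^ q := by
        rw [sub_pow_char, one_pow]
      have h3 : l (1 - s ^ q) = (q : ZMod (2 ^ k)) * l (1 - s) := by
        rw [h2, l_pow hl (sub_ne_zero.2 hs.2.symm)]
      have h4 : l (s ^ q) = (q : ZMod (2 ^ k)) * l s := l_pow hl hs.1 q
      have h5 : nl χ E (s ^ q) = nl χ E s := by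
        unfold nl
        rw [map_pow, ZMod.pow_card]
      have hcond : (s ^ q ≠ 0 ∧ s ^ q ≠ 1 ∧ Odd (l (1 - s ^ q)).val) ↔
          (s ≠ 0 ∧ s ≠ 1 ∧ Odd (l (1 - s)).val) := by
        rw [h0, h1, h3, hpar]
      by_cases hc : s ≠ 0 ∧ s ≠ 1 ∧ Odd (l (1 - s)).val
      · rw [if_pos hc, if_pos (hcond.2 hc), theta_sgl, h4, h5]
      · rw [if_neg hc, if_neg (mt hcond.1 hc), map_zero]
    · have h2 : ¬ (s ≠ 0 ∧ s ≠ 1 ∧ Odd (l (1 - s)).val) := fun h => hs ⟨h.1, h.2.1⟩
      have h3 : ¬ (s ^ q ≠ 0 ∧ s ^ q ≠ 1 ∧ Odd (l (1 - s ^ q)).val) := fun h =>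
        hs ⟨h0.1 h.1, h1.1 h.2.1⟩
      rw [if_neg h2, if_neg h3, map_zero]
  have h := theta_coeff (q : ZMod (2 ^ k)) A hunit (PN c n (HH l (nl χ E)))
  rw [theta_PN _ _ _ _ hH] at h
  exact h

end Pool.Agent.Y67.UE.VI
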